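import Mathlib
import Pool.Agent.X19.RS.Stm

/-! Part RS_TR (backup). -/

set_option autoImplicit false

open MeasureTheory ProbabilityTheory Filter Topology
open scoped ENNReal Matrix

namespace Pool.Agent.X107.RS.TR

open Pool.Agent.X19.SS Pool.Agent.X19.RS

variable {K : Type} [RCLike K]

theorem rk_upper (d n q r : ℕ) (s : ℝ) : (Sg K d n q r s).rank ≤ r := by
  have h : Sg K d n q r s = (Sg K d r q r s) *
      (Matrix.of fun (i : Fin r) (j : Fin n) => if i.val = j.val then (1 : K) else 0) := by
    ext i j
    rw [Matrix.mul_apply]
    simp only [Sg, Matrix.of_apply]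
    by_cases hj : j.val < r
    · rw [Finset.sum_eq_single (⟨j.val, hj⟩ : Fin r)]
      · simp
      · intro b _ hb
        have : b.val ≠ j.val := fun h => hb (Fin.ext h)
        simp [this]
      · intro h; exact absurd (Finset.mem_univ _) h
    · rw [if_neg (fun h => hj h.2)]
      symm
      apply Finset.sum_eq_zero
      intro b _
      have : b.val ≠ j.val := fun h => hj (h ▸ b.2)
      simp [this]
  rw [h]
  refine (Matrix.rank_mul_le_left _ _).trans ?_
  simpa using Matrix.rank_le_width (Sg K d r q r s)

theorem rk_lower (d n q r : ℕ) (s : ℝ) (hs : s ≠ 0) (hd : r ≤ d) (hn : r ≤ n) :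
    r ≤ (Sg K d n q r s).rank := by
  have h : (Sg K d n q r s).submatrix (Fin.castLE hd) (Fin.castLE hn) =
      Matrix.diagonal (fun j : Fin r => if j.val < q then (s : K) else 1) := by
    ext i j
    simp only [Sg, Matrix.submatrix_apply, Matrix.of_apply, Fin.val_castLE, Matrix.diagonal_apply]
    by_cases hij : i = j
    · subst hij; simp
    · have : i.val ≠ j.val := fun h => hij (Fin.ext h)
      simp [this, hij]
  have h2 := Matrix.rank_submatrix_le (Sg K d n q r s) (Fin.castLE hd) (Fin.castLE hn)
  rw [h, Matrix.rank_of_isUnit _ ((Matrix.isUnit_iff_isUnit_det _).2 ?_)] at h2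
  · simpa using h2
  · rw [Matrix.det_diagonal, isUnit_iff_ne_zero, Finset.prod_ne_zero_iff]
    intro j _
    split_ifs
    · exact_mod_cast hs
    · exact one_ne_zero

theorem frob2_right {d n : ℕ} (M : Matrix (Fin d) (Fin n) K) (V : Matrix (Fin n) (Fin n) K)
    (hV : V ∈ Matrix.unitaryGroup (Fin n) K) : frob2 (M * V) = frob2 M := by
  rw [frob2_eq, frob2_eq, Matrix.conjTranspose_mul]
  congr 2
  rw [Matrix.mul_assoc, Matrix.trace_mul_comm, Matrix.mul_assoc, Matrix.mul_assoc]
  have h := Matrix.mem_unitaryGroup_iff.1 hV
  rw [Matrix.star_eq_conjTranspose] at h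
  rw [h, Matrix.mul_one]

theorem t : S_TR := by
  intro K _ d e q m hd s hs V hV
  have hdet : IsUnit V.det := by
    have h := Matrix.mem_unitaryGroup_iff.1 hV
    have h2 := congrArg Matrix.det h
    rw [Matrix.det_mul, Matrix.det_one] at h2
    exact IsUnit.of_mul_eq_one _ h2
  have hs0 : s ≠ 0 := by linarith
  constructor
  · rw [Matrix.rank_mul_eq_left_of_isUnit_det _ _ hdet]
    exact le_antisymm (rk_upper _ _ _ _ _) (rk_lower _ _ _ _ _ hs0 hd (by omega))
  · unfold tailq
    refine iInf_le_of_le (Sg K d (q + m + e) q q s * V) (iInf_le_of_le ?_ ?_)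
    · exact (Matrix.rank_mul_le_left _ _).trans (rk_upper _ _ _ _ _)
    · rw [← Matrix.sub_mul, frob2_right _ _ hV]
      unfold frob2
      rw [Finset.sum_comm]
      calc ∑ j : Fin (q + m + e), ∑ i : Fin d,
            ‖(Sg K d (q + m + e) q (q + m) s - Sg K d (q + m + e) q q s) i j‖ₑ ^ 2
          ≤ ∑ j : Fin (q + m + e), (if q ≤ j.val ∧ j.val < q + m then (1 : ℝ≥0∞) else 0) := by
            apply Finset.sum_le_sum
            intro j _
            by_cases hj : q ≤ j.val ∧ j.val < q + m
            · rw [if_pos hj]
              have hjd : j.val < d := by omega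
              rw [Finset.sum_eq_single (⟨j.val, hjd⟩ : Fin d)]
              · simp only [Sg, Matrix.sub_apply, Matrix.of_apply]
                have h1 : ¬ j.val < q := by omega
                simp [hj.2, h1]
              · intro b _ hb
                have : b.val ≠ j.val := fun h => hb (Fin.ext h)
                simp [Sg, this]
              · intro h; exact absurd (Finset.mem_univ _) h
            · rw [if_neg hj]
              apply le_of_eq
              apply Finset.sum_eq_zero
              intro b _
              simp only [Sg, Matrix.sub_apply, Matrix.of_apply]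
              by_cases h1 : j.val < q
              · have h2 : j.val < q + m := by omega
                simp [h1, h2]
              · have h2 : ¬ j.val < q + m := fun h => hj ⟨by omega, h⟩
                simp [h1, h2]
        _ = (((Finset.univ : Finset (Fin (q + m + e))).filter
              fun j => q ≤ j.val ∧ j.val < q + m).card : ℝ≥0∞) := by
            rw [Finset.sum_ite, Finset.sum_const_zero, add_zero, Finset.sum_const, nsmul_eq_mul,
              mul_one]
        _ ≤ m := by
            have h1 : ((Finset.univ : Finset (Fin (q + m + e))).filter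
              fun j => q ≤ j.val ∧ j.val < q + m).card ≤ (Finset.Ico q (q + m)).card := by
              apply Finset.card_le_card_of_injOn (fun j => j.val)
              · intro j hj
                simp at hj ⊢
                exact hj
              · intro a _ b _ h
                exact Fin.ext h
            rw [Nat.card_Ico, Nat.add_sub_cancel_left] at h1
            exact_mod_cast h1

end Pool.Agent.X107.RS.TR
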